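import Pool.Agent.W37.SG.Stm2

/-!
SG-TAY for MP_9a3597_al: the quotient of the Lie algebra by the ideal `I_x` is three
dimensional.
-/

namespace Pool.Agent.W705.SG

open Pool.Agent.W37.SG PowerSeries

variable {p : ℕ} [Fact p.Prime]

/-- The Taylor series at `x`. -/
noncomputable def T (D : Qf p → Qf p) (x : ℕ → ZMod p) (f : Qf p) : ℚ_[p]⟦X⟧ :=
  PowerSeries.mk (fun n => (D^[n] f) x / (n.factorial : ℚ_[p]))

theorem coeff_T (D : Qf p → Qf p) (x : ℕ → ZMod p) (f : Qf p) (n : ℕ) :
    coeff n (T D x f) = (D^[n] f) x / (n.factorial : ℚ_[p]) := by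
  simp [T]

theorem T_D (D : Qf p → Qf p) (x : ℕ → ZMod p) (f : Qf p) :
    T D x (D f) = derivative ℚ_[p] (T D x f) := by
  ext n
  rw [PowerSeries.coeff_derivative, coeff_T, coeff_T, Nat.factorial_succ,
    Function.iterate_succ_apply]
  have h1 : ((n.factorial : ℕ) : ℚ_[p]) ≠ 0 := by exact_mod_cast n.factorial_ne_zero
  have h2 : ((n : ℚ_[p]) + 1) ≠ 0 := by exact_mod_cast Nat.succ_ne_zero n
  push_cast
  field_simp

theorem T_eq_zero (D : Qf p → Qf p) (x : ℕ → ZMod p) (f : Qf p) :
    T D x f = 0 ↔ InI p D x f := by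
  constructor
  · intro h n
    have h1 := coeff_T D x f n
    rw [h] at h1
    have h2 : ((n.factorial : ℕ) : ℚ_[p]) ≠ 0 := by exact_mod_cast n.factorial_ne_zero
    simp only [map_zero] at h1
    have h3 := h1.symm
    rw [div_eq_zero_iff] at h3
    rcases h3 with h3 | h3
    · exact h3
    · exact absurd h3 h2
  · intro h
    ext n
    rw [coeff_T, h n]
    simp

section

variable {Q : Subgroup (Pm p)} {L : Submodule ℚ_[p] (Qf p)} {E : Pm p → Qf p}
  {D : Qf p → Qf p}

theorem iter_mem (H : LieHyp p Q L E D) (n : ℕ) : ∀ f ∈ L, D^[n] f ∈ L := by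
  induction n with
  | zero => intro f hf; exact hf
  | succ n ih =>
    intro f hf
    rw [Function.iterate_succ_apply]
    exact ih _ (H.Dmem f hf)

theorem iter_add (H : LieHyp p Q L E D) (n : ℕ) : ∀ f ∈ L, ∀ h ∈ L,
    D^[n] (f + h) = D^[n] f + D^[n] h := by
  induction n with
  | zero => intro f _ h _; rfl
  | succ n ih =>
    intro f hf h hh
    rw [Function.iterate_succ_apply, Function.iterate_succ_apply, Function.iterate_succ_apply,
      H.Dadd f hf h hh]
    exact ih _ (H.Dmem f hf) _ (H.Dmem h hh)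

theorem iter_smul (H : LieHyp p Q L E D) (n : ℕ) (c : ℚ_[p]) : ∀ f ∈ L,
    D^[n] (c • f) = c • D^[n] f := by
  induction n with
  | zero => intro f _; rfl
  | succ n ih =>
    intro f hf
    rw [Function.iterate_succ_apply, Function.iterate_succ_apply, H.Dsmul c f hf]
    exact ih _ (H.Dmem f hf)

theorem T_add (H : LieHyp p Q L E D) (x : ℕ → ZMod p) {f h : Qf p} (hf : f ∈ L) (hh : h ∈ L) :
    T D x (f + h) = T D x f + T D x h := by
  ext n
  rw [map_add, coeff_T, coeff_T, coeff_T, iter_add H n f hf h hh, Pi.add_apply, add_div]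

theorem T_smul (H : LieHyp p Q L E D) (x : ℕ → ZMod p) (c : ℚ_[p]) {f : Qf p} (hf : f ∈ L) :
    T D x (c • f) = c • T D x f := by
  ext n
  rw [map_smul, coeff_T, coeff_T, iter_smul H n c f hf, Pi.smul_apply, smul_eq_mul,
    smul_eq_mul, mul_div_assoc]

/-- The Taylor map. -/
noncomputable def Th (H : LieHyp p Q L E D) (x : ℕ → ZMod p) : L →ₗ[ℚ_[p]] ℚ_[p]⟦X⟧ where
  toFun f := T D x f
  map_add' f h := T_add H x f.2 h.2
  map_smul' c f := T_smul H x c f.2

theorem D_zero (H : LieHyp p Q L E D) : D 0 = 0 := by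
  have h := H.Dsmul 0 (oneF p) H.one_mem
  simpa using h

theorem T_one (H : LieHyp p Q L E D) (x : ℕ → ZMod p) : T D x (oneF p) = 1 := by
  ext n
  rw [coeff_T, PowerSeries.coeff_one]
  have h0 : ∀ m : ℕ, D^[m] (0 : Qf p) = 0 := by
    intro m
    induction m with
    | zero => rfl
    | succ m ih => rw [Function.iterate_succ_apply, D_zero H, ih]
  cases n with
  | zero => simp [oneF]
  | succ n =>
    rw [Function.iterate_succ_apply, H.D1, h0 n]
    simp

theorem coeff_brk (H : LieHyp p Q L E D) (x : ℕ → ZMod p) (n : ℕ) : ∀ f ∈ L, ∀ h ∈ L,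
    (D^[n] (brk p D f h)) x / (n.factorial : ℚ_[p]) =
      coeff n (T D x f * derivative ℚ_[p] (T D x h) - T D x h * derivative ℚ_[p] (T D x f)) := by
  induction n with
  | zero =>
    intro f hf h hh
    rw [map_sub, PowerSeries.coeff_mul, PowerSeries.coeff_mul, ← T_D, ← T_D]
    simp [brk, coeff_T]
  | succ n ih =>
    intro f hf h hh
    have hDf := H.Dmem f hf
    have hDh := H.Dmem h hh
    have e1 : D (brk p D f h) = brk p D f (D h) + brk p D (D f) h := by
      rw [(H.br f hf h hh).2]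
      funext y
      simp only [brk, Pi.add_apply]
      ring
    have i1 := ih f hf (D h) hDh
    have i2 := ih (D f) hDf h hh
    rw [T_D] at i1 i2
    have h1 : ((n.factorial : ℕ) : ℚ_[p]) ≠ 0 := by exact_mod_cast n.factorial_ne_zero
    have h2 : ((n : ℚ_[p]) + 1) ≠ 0 := by exact_mod_cast Nat.succ_ne_zero n
    have e2 : (D^[n+1] (brk p D f h)) x = (D^[n] (brk p D f (D h))) x +
        (D^[n] (brk p D (D f) h)) x := by
      rw [Function.iterate_succ_apply, e1, iter_add H n _ (H.br f hf _ hDh).1 _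
        (H.br _ hDf h hh).1, Pi.add_apply]
    have e3 : coeff (n + 1) (T D x f * derivative ℚ_[p] (T D x h) -
        T D x h * derivative ℚ_[p] (T D x f)) * ((n : ℚ_[p]) + 1) =
        coeff n (derivative ℚ_[p] (T D x f * derivative ℚ_[p] (T D x h) -
        T D x h * derivative ℚ_[p] (T D x f))) := by
      rw [PowerSeries.coeff_derivative]
    have e4 : derivative ℚ_[p] (T D x f * derivative ℚ_[p] (T D x h) -
        T D x h * derivative ℚ_[p] (T D x f)) =
        (T D x f * derivative ℚ_[p] (derivative ℚ_[p] (T D x h)) -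
          derivative ℚ_[p] (T D x h) * derivative ℚ_[p] (T D x f)) +
        (derivative ℚ_[p] (T D x f) * derivative ℚ_[p] (T D x h) -
          T D x h * derivative ℚ_[p] (derivative ℚ_[p] (T D x f))) := by
      rw [map_sub, Derivation.leibniz, Derivation.leibniz]
      simp only [smul_eq_mul]
      ring
    rw [e4, map_add, ← i1, ← i2] at e3
    rw [e2, Nat.factorial_succ]
    push_cast
    rw [← mul_left_inj' h2, e3]
    field_simp

theorem T_brk (H : LieHyp p Q L E D) (x : ℕ → ZMod p) {f h : Qf p} (hf : f ∈ L) (hh : h ∈ L) :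
    T D x (brk p D f h) =
      T D x f * derivative ℚ_[p] (T D x h) - T D x h * derivative ℚ_[p] (T D x f) := by
  ext n
  rw [coeff_T, coeff_brk H x n f hf h hh]

theorem brk_one (H : LieHyp p Q L E D) (f : Qf p) : brk p D (oneF p) f = D f := by
  funext y
  simp [brk, H.D1, oneF]

/-- The span of the brackets. -/
noncomputable def Lb (L : Submodule ℚ_[p] (Qf p)) (D : Qf p → Qf p) :
    Submodule ℚ_[p] (Qf p) :=
  Submodule.span ℚ_[p] {F | ∃ f ∈ L, ∃ h ∈ L, F = brk p D f h}

theorem Lb_eq (hinv : S_INV) (H : LieHyp p Q L E D) (hne : ∃ f ∈ L, D f ≠ 0) : Lb L D = L := by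
  obtain ⟨-, -, h3, -⟩ := hinv p Q L E D H
  have hle : Lb L D ≤ L := by
    refine Submodule.span_le.2 ?_
    rintro _ ⟨f, hf, h, hh, rfl⟩
    exact (H.br f hf h hh).1
  rcases H.irr (Lb L D) hle (by
    intro g hg f hf
    refine Submodule.span_induction (p := fun f _ => actF p E g f ∈ Lb L D) ?_ ?_ ?_ ?_ hf
    · rintro _ ⟨f, hf, h, hh, rfl⟩
      rw [← h3 g hg f hf h hh]
      exact Submodule.subset_span ⟨_, H.act g hg f hf, _, H.act g hg h hh, rfl⟩
    · have : actF p E g (0 : Qf p) = 0 := by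
        funext y; simp [actF]
      rw [this]; exact Submodule.zero_mem _
    · intro a b _ _ ha hb
      have : actF p E g (a + b) = actF p E g a + actF p E g b := by
        funext y; simp [actF, add_mul]
      rw [this]; exact Submodule.add_mem _ ha hb
    · intro c a _ ha
      have : actF p E g (c • a) = c • actF p E g a := by
        funext y; simp [actF, mul_assoc]
      rw [this]; exact Submodule.smul_mem _ _ ha) with h0 | h0
  · exfalso
    obtain ⟨f, hf, hDf⟩ := hne
    apply hDf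
    have : D f ∈ Lb L D := by
      rw [← brk_one H f]
      exact Submodule.subset_span ⟨_, H.one_mem, _, hf, rfl⟩
    rw [h0] at this
    simpa using this
  · exact h0

/-- If all the brackets in the image lie in a subspace, so does the image. -/
theorem image_le (hinv : S_INV) (H : LieHyp p Q L E D) (hne : ∃ f ∈ L, D f ≠ 0)
    (x : ℕ → ZMod p) (K : Submodule ℚ_[p] ℚ_[p]⟦X⟧)
    (hK : ∀ f ∈ L, ∀ h ∈ L,
      T D x f * derivative ℚ_[p] (T D x h) - T D x h * derivative ℚ_[p] (T D x f) ∈ K) :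
    ∀ f ∈ L, T D x f ∈ K := by
  intro f hf
  have hle : Lb L D ≤ L := (Lb_eq hinv H hne).le
  have hf' : f ∈ Lb L D := by rw [Lb_eq hinv H hne]; exact hf
  have key : ∀ f (hf : f ∈ Lb L D), T D x f ∈ K := by
    intro f hf
    refine Submodule.span_induction (p := fun f _ => T D x f ∈ K) ?_ ?_ ?_ ?_ hf
    · rintro _ ⟨f, hf, h, hh, rfl⟩
      rw [T_brk H x hf hh]
      exact hK f hf h hh
    · have : T D x (0 : Qf p) = 0 := by
        have := T_smul H x 0 H.one_mem
        simpa using this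
      rw [this]; exact Submodule.zero_mem _
    · intro a b ha hb ha' hb'
      rw [T_add H x (hle ha) (hle hb)]
      exact Submodule.add_mem _ ha' hb'
    · intro c a ha ha'
      rw [T_smul H x c (hle ha)]
      exact Submodule.smul_mem _ _ ha'
  exact key f hf'

end

theorem main : S_TAY := by
  intro _ _ hJ1 hinv p _ Q L E D _ _ H hne x
  have := H.fd
  have hNmem : ∀ F, F ∈ LinearMap.range (Th H x) ↔ ∃ f ∈ L, T D x f = F := by
    intro F
    constructor
    · rintro ⟨f, rfl⟩
      exact ⟨f, f.2, rfl⟩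
    · rintro ⟨f, hf, rfl⟩
      exact ⟨⟨f, hf⟩, rfl⟩
  have hfd : FiniteDimensional ℚ_[p] (LinearMap.range (Th H x)) := inferInstance
  have h1 : (1 : ℚ_[p]⟦X⟧) ∈ LinearMap.range (Th H x) :=
    (hNmem _).2 ⟨oneF p, H.one_mem, T_one H x⟩
  rcases hJ1 ℚ_[p] (LinearMap.range (Th H x)) hfd h1
    (by
      intro F hF
      obtain ⟨f, hf, rfl⟩ := (hNmem _).1 hF
      exact (hNmem _).2 ⟨D f, H.Dmem f hf, T_D D x f⟩)
    (by
      intro F hF G hG
      obtain ⟨f, hf, rfl⟩ := (hNmem _).1 hF
      obtain ⟨h, hh, rfl⟩ := (hNmem _).1 hG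
      exact (hNmem _).2 ⟨_, (H.br f hf h hh).1, T_brk H x hf hh⟩) with hN | hN | hN
  · -- first shape
    exfalso
    have hc : ∀ f ∈ L, ∃ a : ℚ_[p], T D x f = a • 1 := by
      intro f hf
      have : T D x f ∈ LinearMap.range (Th H x) := (hNmem _).2 ⟨f, hf, rfl⟩
      rw [hN, Submodule.mem_span_singleton] at this
      obtain ⟨a, ha⟩ := this
      exact ⟨a, ha.symm⟩
    have := image_le hinv H hne x ⊥ (by
      intro f hf h hh
      obtain ⟨a, ha⟩ := hc f hf
      obtain ⟨b, hb⟩ := hc h hh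
      rw [ha, hb]
      simp) (oneF p) H.one_mem
    rw [T_one H x] at this
    simp at this
  · exfalso
    obtain ⟨e, -, he0, he1, hN⟩ := hN
    have hc : ∀ f ∈ L, ∃ a b : ℚ_[p], T D x f = a • 1 + b • e := by
      intro f hf
      have : T D x f ∈ LinearMap.range (Th H x) := (hNmem _).2 ⟨f, hf, rfl⟩
      rw [hN, Submodule.mem_span_pair] at this
      obtain ⟨a, b, ha⟩ := this
      exact ⟨a, b, ha.symm⟩
    have hK := image_le hinv H hne x (Submodule.span ℚ_[p] {derivative ℚ_[p] e}) (by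
      intro f hf h hh
      obtain ⟨a, b, ha⟩ := hc f hf
      obtain ⟨c, d, hb⟩ := hc h hh
      rw [ha, hb, Submodule.mem_span_singleton]
      refine ⟨a * d - b * c, ?_⟩
      have hs : ∀ (c : ℚ_[p]) (F : ℚ_[p]⟦X⟧), derivative ℚ_[p] (c • F) =
          c • derivative ℚ_[p] F := fun c F => (derivative ℚ_[p]).map_smul c F
      have h1 : derivative ℚ_[p] (1 : ℚ_[p]⟦X⟧) = 0 := (derivative ℚ_[p]).map_one_eq_zero
      simp only [map_add, hs, h1, smul_zero, zero_add,
        add_mul, smul_mul_assoc, one_mul, mul_smul_comm, sub_smul]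
      module)
    have k1 := hK (oneF p) H.one_mem
    rw [T_one H x, Submodule.mem_span_singleton] at k1
    obtain ⟨a, ha⟩ := k1
    have he : e ∈ LinearMap.range (Th H x) := by
      rw [hN]; exact Submodule.subset_span (by simp)
    obtain ⟨f, hf, hfe⟩ := (hNmem _).1 he
    have k2 := hK f hf
    rw [hfe, Submodule.mem_span_singleton] at k2
    obtain ⟨b, hb⟩ := k2
    have c1 := congrArg (coeff 1) ha
    have c2 := congrArg (coeff 1) hb
    have c3 := congrArg (coeff 0) ha
    rw [map_smul, smul_eq_mul] at c1 c2 c3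
    rw [he1] at c2
    have o1 : coeff 1 (1 : ℚ_[p]⟦X⟧) = 0 := by rw [PowerSeries.coeff_one]; simp
    have o0 : coeff 0 (1 : ℚ_[p]⟦X⟧) = 1 := by rw [PowerSeries.coeff_one]; simp
    rw [o1] at c1
    rw [o0] at c3
    rcases mul_eq_zero.1 c1 with h | h
    · rw [h, zero_mul] at c3
      exact zero_ne_one c3
    · rw [h, mul_zero] at c2
      exact zero_ne_one c2
  · obtain ⟨ε₁, hε₁, ε₂, hε₂, β, hN, a0, a1, a2, b0, b1, b2, d1, d2, d3⟩ := hN
    obtain ⟨e₁, he₁, rfl⟩ := (hNmem _).1 hε₁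
    obtain ⟨e₂, he₂, rfl⟩ := (hNmem _).1 hε₂
    have hsub : ∀ f ∈ L, ∀ h ∈ L, T D x (f - h) = T D x f - T D x h := by
      intro f hf h hh
      have := T_add H x (L.sub_mem hf hh) hh
      rw [sub_add_cancel] at this
      rw [this]; ring
    have hsm : ∀ (c : ℚ_[p]), ∀ f ∈ L, c • f ∈ L := fun c f hf => L.smul_mem c hf
    have one := H.one_mem
    refine ⟨e₁, he₁, e₂, he₂, β, ?_, ?_, ?_, ?_, ?_⟩
    · intro f hf
      have : T D x f ∈ LinearMap.range (Th H x) := (hNmem _).2 ⟨f, hf, rfl⟩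
      rw [hN, Submodule.mem_span_triple] at this
      obtain ⟨a, b, c, habc⟩ := this
      refine ⟨a, b, c, ?_⟩
      rw [← T_eq_zero, hsub _ (L.sub_mem (L.sub_mem hf (hsm a _ one)) (hsm b _ he₁)) _
        (hsm c _ he₂), hsub _ (L.sub_mem hf (hsm a _ one)) _ (hsm b _ he₁),
        hsub _ hf _ (hsm a _ one), T_smul H x _ one, T_smul H x _ he₁, T_smul H x _ he₂,
        T_one H x, ← habc]
      abel
    · intro a b c h
      rw [← T_eq_zero, T_add H x (L.add_mem (hsm a _ one) (hsm b _ he₁)) (hsm c _ he₂),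
        T_add H x (hsm a _ one) (hsm b _ he₁), T_smul H x _ one, T_smul H x _ he₁,
        T_smul H x _ he₂, T_one H x] at h
      have q0 := congrArg (coeff 0) h
      have q1 := congrArg (coeff 1) h
      have q2 := congrArg (coeff 2) h
      have o0 : coeff 0 (1 : ℚ_[p]⟦X⟧) = 1 := by rw [PowerSeries.coeff_one]; simp
      have o1 : coeff 1 (1 : ℚ_[p]⟦X⟧) = 0 := by rw [PowerSeries.coeff_one]; simp
      have o2 : coeff 2 (1 : ℚ_[p]⟦X⟧) = 0 := by rw [PowerSeries.coeff_one]; simp
      rw [map_add, map_add, map_smul, map_smul, map_smul, map_zero, o0, a0, b0] at q0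
      rw [map_add, map_add, map_smul, map_smul, map_smul, map_zero, o1, a1, b1] at q1
      rw [map_add, map_add, map_smul, map_smul, map_smul, map_zero, o2, a2, b2] at q2
      simp only [smul_eq_mul, mul_one, mul_zero, add_zero, zero_add] at q0 q1 q2
      exact ⟨q0, q1, q2⟩
    · rw [brk_one H, ← T_eq_zero, hsub _ (L.sub_mem (H.Dmem _ he₁) one) _ (hsm β _ he₂),
        hsub _ (H.Dmem _ he₁) _ one, T_D, T_one H x, T_smul H x _ he₂, d1]
      abel
    · rw [brk_one H, ← T_eq_zero, hsub _ (H.Dmem _ he₂) _ (hsm 2 _ he₁), T_D,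
        T_smul H x _ he₁, d2]
      rw [sub_eq_zero, ← map_ofNat (algebraMap ℚ_[p] ℚ_[p]⟦X⟧) 2, ← Algebra.smul_def]
    · rw [← T_eq_zero, hsub _ (H.br _ he₁ _ he₂).1 _ he₂, T_brk H x he₁ he₂, d3, sub_self]

end Pool.Agent.W705.SG
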